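import Pool.Agent.Helper85.SSW.Acyc

set_option autoImplicit false

/-!
# The Sands-Sauer-Woodrow question for tournaments without one-coloured directed cycles: bypassed arcs

A 3-coloured tournament without rainbow directed triangle and without directed cycle of one colour has a vertex
reaching every other vertex by a monochromatic path, unless for every colour `z` some directed triangle has colours
`z, b, z` and its first arc is bypassed by a path of the third colour.
-/

namespace Pool.Agent.Results.MP_fca86c_co.AcyclicBypass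

open Relation

variable {V : Type*}

/-- `Arc G col c u v`: `uv` is an arc of colour `c`. -/
def Arc (G : Digraph V) (col : V → V → Fin 3) (c : Fin 3) (u v : V) : Prop := G.Adj u v ∧ col u v = c

/-- `Mono G col c u v`: there is a directed path (of length at least one) from `u` to `v` all of whose arcs have
colour `c`. -/
def Mono (G : Digraph V) (col : V → V → Fin 3) (c : Fin 3) (u v : V) : Prop := TransGen (Arc G col c) u v

/-- `Bypass G col z`: a directed triangle `u → v → w → u` with colours `z, b, z` (`b ≠ z`) whose arc `u → v` is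
bypassed by a directed path of the third colour `a` from `u` to `v` -/
def Bypass (G : Digraph V) (col : V → V → Fin 3) (z : Fin 3) : Prop :=
  ∃ (a b : Fin 3) (u v w : V), a ≠ b ∧ b ≠ z ∧ a ≠ z ∧
    Arc G col z u v ∧ Arc G col b v w ∧ Arc G col z w u ∧ Mono G col a u v

theorem result {V : Type*} [Finite V] [Nonempty V] (G : Digraph V) (col : V → V → Fin 3)
    (hirr : ∀ v, ¬ G.Adj v v)
    (htour : ∀ u v, u ≠ v → (G.Adj u v ↔ ¬ G.Adj v u))
    (hrb : ¬ ∃ u v w, G.Adj u v ∧ G.Adj v w ∧ G.Adj w u ∧
      col u v ≠ col v w ∧ col v w ≠ col w u ∧ col u v ≠ col w u)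
    (hcyc : ∀ c v, ¬ Mono G col c v v)
    (z : Fin 3) (hz : ¬ Bypass G col z) :
    ∃ v, ∀ w, w ≠ v → ∃ c, Mono G col c v w := by
  have _h := hirr
  refine Pool.Agent.Helper85.SSW.main (Arc G col) z ?_ hcyc ?_ (Or.inl hz)
  · intro u v huv
    by_cases h : G.Adj u v
    · exact Or.inl ⟨col u v, h, rfl⟩
    · have h2 : G.Adj v u := (htour v u (Ne.symm huv)).2 h
      exact Or.inr ⟨col v u, h2, rfl⟩
  · intro c d e u v w hcd hde hce h1 h2 h3
    refine hrb ⟨u, v, w, h1.1, h2.1, h3.1, ?_, ?_, ?_⟩
    · rw [h1.2, h2.2]
      exact hcd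
    · rw [h2.2, h3.2]
      exact hde
    · rw [h1.2, h3.2]
      exact hce

end Pool.Agent.Results.MP_fca86c_co.AcyclicBypass
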