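import Pool.Agent.Helper74.SSWTrans

set_option autoImplicit false

/-!
# The Sands-Sauer-Woodrow question with all but two colour classes closed

A tournament with coloured arcs (any number of colours) in which all colours except two, `p` and
`q`, behave transitively with respect to rainbow triangles has a vertex reaching every other
vertex by a monochromatic path.
-/

namespace Pool.Agent.Results.MP_fca86c_co.TransitiveClasses

open Relation Pool.Agent.SSW74

variable {V C : Type*}

/-- `Mono G col c x y`: there is a directed path (of length at least one) from `x` to `y` all of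
whose arcs have colour `c`. -/
def Mono (G : Digraph V) (col : V → V → C) (c : C) (x y : V) : Prop :=
  TransGen (fun a b => G.Adj a b ∧ col a b = c) x y

/-- `Linked G col p q x y`: some directed path of one colour other than `p` and `q` joins `x` and
`y`, in one of the two directions. -/
def Linked (G : Digraph V) (col : V → V → C) (p q : C) (x y : V) : Prop :=
  ∃ j, j ≠ p ∧ j ≠ q ∧ (Mono G col j x y ∨ Mono G col j y x)

/-- `Step G col p q c x y`: if `c` is `p` or `q`, then `x y` is an arc of colour `c` and `x`, `y`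
are not linked; otherwise there is a directed path of colour `c` from `x` to `y`. -/
def Step (G : Digraph V) (col : V → V → C) (p q c : C) (x y : V) : Prop :=
  ((c = p ∨ c = q) ∧ (G.Adj x y ∧ col x y = c) ∧ ¬ Linked G col p q x y) ∨
    (c ≠ p ∧ c ≠ q ∧ Mono G col c x y)

/-- the auxiliary relations: closed colour classes, and the arcs of colour `p`, `q` between
vertices which are not linked -/
def Aux (G : Digraph V) (col : V → V → C) (p q : C) (e : V → ℕ) (c : C) (x y : V) : Prop :=
  ((c = p ∨ c = q) ∧ (G.Adj x y ∧ col x y = c) ∧ ¬ Linked G col p q x y) ∨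
  (c ≠ p ∧ c ≠ q ∧ x ≠ y ∧ Mono G col c x y ∧ (Mono G col c y x → e x < e y))

theorem result {V C : Type*} [Finite V] [Nonempty V] (G : Digraph V) (col : V → V → C) (p q : C)
    (hirr : ∀ v, ¬ G.Adj v v)
    (htour : ∀ u v, u ≠ v → (G.Adj u v ↔ ¬ G.Adj v u))
    (hA : ∀ i j x y, i ≠ p → i ≠ q → j ≠ p → j ≠ q → i ≠ j → x ≠ y →
      Mono G col i x y → Mono G col j y x → False)
    (hR : ∀ i j k x y z, i ≠ j → j ≠ k → i ≠ k → x ≠ y → y ≠ z → x ≠ z →
      Step G col p q i x y → Step G col p q j y z → Step G col p q k z x → False) :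
    ∃ v, ∀ w, w ≠ v → ∃ i, Mono G col i v w := by
  classical
  have := Fintype.ofFinite V
  obtain ⟨e, he⟩ : ∃ e : V → ℕ, Function.Injective e :=
    ⟨fun x => (Fintype.equivFin V x : ℕ), fun x y h => (Fintype.equivFin V).injective (Fin.ext h)⟩
  have hne : ∀ c x y, Aux G col p q e c x y → x ≠ y := by
    rintro c x y (⟨-, ⟨h, -⟩, -⟩ | ⟨-, -, h, -⟩)
    · rintro rfl
      exact hirr _ h
    · exact h
  have hstep : ∀ c x y, Aux G col p q e c x y → Step G col p q c x y := by
    rintro c x y (h | ⟨h1, h2, -, h3, -⟩)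
    · exact Or.inl h
    · exact Or.inr ⟨h1, h2, h3⟩
  have hmono : ∀ c x y, Aux G col p q e c x y → Mono G col c x y := by
    rintro c x y (⟨-, h2, -⟩ | ⟨-, -, -, h3, -⟩)
    · exact TransGen.single h2
    · exact h3
  have hM : Multi (Aux G col p q e) p q := by
    refine ⟨?_, ?_, ?_, ?_⟩
    · intro x y hxy
      by_cases h : ∃ j, j ≠ p ∧ j ≠ q ∧ (Mono G col j x y ∨ Mono G col j y x)
      · obtain ⟨j, hjp, hjq, hj⟩ := h
        refine ⟨j, ?_⟩
        rcases Nat.lt_trichotomy (e x) (e y) with hlt | heq | hlt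
        · rcases hj with hj | hj
          · exact Or.inl (Or.inr ⟨hjp, hjq, hxy, hj, fun _ => hlt⟩)
          · by_cases hj' : Mono G col j x y
            · exact Or.inl (Or.inr ⟨hjp, hjq, hxy, hj', fun _ => hlt⟩)
            · exact Or.inr (Or.inr ⟨hjp, hjq, hxy.symm, hj, fun h => absurd h hj'⟩)
        · exact absurd (he heq) hxy
        · rcases hj with hj | hj
          · by_cases hj' : Mono G col j y x
            · exact Or.inr (Or.inr ⟨hjp, hjq, hxy.symm, hj', fun _ => hlt⟩)
            · exact Or.inl (Or.inr ⟨hjp, hjq, hxy, hj, fun h => absurd h hj'⟩)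
          · exact Or.inr (Or.inr ⟨hjp, hjq, hxy.symm, hj, fun _ => hlt⟩)
      · have hN : ∀ x y, G.Adj x y → ¬ Linked G col p q x y →
            Aux G col p q e (col x y) x y := by
          intro x y hadj hno
          refine Or.inl ⟨?_, ⟨hadj, rfl⟩, hno⟩
          by_contra hcon
          push Not at hcon
          exact hno ⟨_, hcon.1, hcon.2, Or.inl (TransGen.single ⟨hadj, rfl⟩)⟩
        by_cases hadj : G.Adj x y
        · exact ⟨_, Or.inl (hN x y hadj h)⟩
        · have hadj' : G.Adj y x := by
            by_contra hcon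
            exact hadj ((htour x y hxy).2 hcon)
          refine ⟨_, Or.inr (hN y x hadj' ?_)⟩
          rintro ⟨j, h1, h2, h3⟩
          exact h ⟨j, h1, h2, h3.symm⟩
    · intro x y c d hc hd
      have hxy := hne _ _ _ hc
      rcases hc with ⟨hc1, hc2, hc3⟩ | ⟨hc1, hc2, -, hc3, hc4⟩
      · rcases hd with ⟨hd1, hd2, -⟩ | ⟨hd1, hd2, -, hd3, -⟩
        · exact ((htour x y hxy).1 hc2.1) hd2.1
        · exact hc3 ⟨d, hd1, hd2, Or.inr hd3⟩
      · rcases hd with ⟨hd1, hd2, hd3⟩ | ⟨hd1, hd2, -, hd3, hd4⟩
        · exact hd3 ⟨c, hc1, hc2, Or.inr hc3⟩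
        · by_cases hcd : c = d
          · subst hcd
            exact absurd (hc4 hd3) (Nat.lt_asymm (hd4 hc3))
          · exact hA c d x y hc1 hc2 hd1 hd2 hcd hxy hc3 hd3
    · intro c hcp hcq x y z hxy hyz
      rcases hxy with ⟨h | h, -⟩ | ⟨-, -, hxy, h1, h2⟩
      · exact absurd h hcp
      · exact absurd h hcq
      rcases hyz with ⟨h | h, -⟩ | ⟨-, -, hyz, h3, h4⟩
      · exact absurd h hcp
      · exact absurd h hcq
      refine Or.inr ⟨hcp, hcq, ?_, h1.trans h3, ?_⟩
      · rintro rfl
        exact absurd (h2 h3) (Nat.lt_asymm (h4 h1))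
      · intro hzx
        exact (h2 (h3.trans hzx)).trans (h4 (hzx.trans h1))
    · intro i j k x y z hij hjk hik hx hy hz
      exact hR i j k x y z hij hjk hik (hne _ _ _ hx) (hne _ _ _ hy) (hne _ _ _ hz).symm
        (hstep _ _ _ hx) (hstep _ _ _ hy) (hstep _ _ _ hz)
  obtain ⟨⟨v, -, hv⟩, -⟩ := QQ_all hM (Finset.univ : Finset V) Finset.univ_nonempty
  refine ⟨v, fun w hw => ?_⟩
  obtain ⟨c, hc⟩ := hv w (Finset.mem_univ w) hw
  have key : ∀ a b, Rch (Aux G col p q e) Finset.univ c a b → Mono G col c a b := by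
    intro a b hab
    induction hab with
    | single h => exact hmono _ _ _ h.2.2
    | tail _ h ih => exact ih.trans (hmono _ _ _ h.2.2)
  exact ⟨c, key v w hc⟩

end Pool.Agent.Results.MP_fca86c_co.TransitiveClasses
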