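import Pool.Agent.Helper74.TS.Fin
import Pool.Agent.Results.MP_fca86c_co.TransitiveClasses

set_option autoImplicit false

/-!
# The Sands-Sauer-Woodrow question for almost all tournaments with three colours

For large `n`, all but a fraction `0.99 ^ n` of the tournaments on `n` labelled vertices with arcs
coloured by three colours and without rainbow directed triangle use at most two of the colours, and
have a vertex reaching every other vertex by a monochromatic path.
-/

namespace Pool.Agent.Results.MP_fca86c_co.AlmostAll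

open Finset Relation

/-- `T` is a tournament on `V` with arcs coloured by `Fin 3`: `T u v = some c` means that `u v` is an
arc of colour `c`, and `T u v = none` means that `u v` is not an arc. -/
def Coloured {V : Type} (T : V → V → Option (Fin 3)) : Prop :=
  (∀ v, T v v = none) ∧ ∀ u v, u ≠ v → (T u v ≠ none ↔ T v u = none)

/-- there is a rainbow directed triangle -/
def Rainbow {V : Type} (T : V → V → Option (Fin 3)) : Prop :=
  ∃ a b c i j k, T a b = some i ∧ T b c = some j ∧ T c a = some k ∧ i ≠ j ∧ j ≠ k ∧ i ≠ k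

/-- some vertex reaches every other vertex by a monochromatic directed path -/
def Dominated {V : Type} (T : V → V → Option (Fin 3)) : Prop :=
  ∃ v, ∀ w, w ≠ v → ∃ i, TransGen (fun x y => T x y = some i) v w

/-- at most two colours are used -/
def TwoColours {V : Type} (T : V → V → Option (Fin 3)) : Prop :=
  ∃ k, ∀ u v, T u v ≠ some k

open Classical in
/-- the tournaments on `Fin n` with arcs coloured by `Fin 3`, without rainbow directed triangle -/
noncomputable def Free (n : ℕ) : Finset (Fin n → Fin n → Option (Fin 3)) :=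
  univ.filter (fun T => Coloured T ∧ ¬ Rainbow T)

open Pool.Agent.Helper74.TS

open Classical in
/-- the matrix of states -/
private noncomputable def toS {n : ℕ} (T : Fin n → Fin n → Option (Fin 3)) : Fin n → Fin n → St := fun u v =>
  if u = v then (0, true) else if T u v = none then ((T v u).getD 0, false) else ((T u v).getD 0, true)

open Classical in
private noncomputable def ofS {n : ℕ} (S : Fin n → Fin n → St) : Fin n → Fin n → Option (Fin 3) := fun u v =>
  if u = v then none else if (S u v).2 = true then some (S u v).1 else none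

private lemma toS_some {n : ℕ} {T : Fin n → Fin n → Option (Fin 3)} (hT : Coloured T) {u v : Fin n} {c : Fin 3}
    (h : T u v = some c) : u ≠ v ∧ toS T u v = (c, true) ∧ toS T v u = (c, false) := by
  have huv : u ≠ v := by
    rintro rfl
    rw [hT.1 u] at h
    exact absurd h (by simp)
  refine ⟨huv, ?_, ?_⟩
  · unfold toS
    rw [if_neg huv, if_neg (by rw [h]; simp), h]
    rfl
  · have h' : T v u = none := (hT.2 u v huv).1 (by rw [h]; simp)
    unfold toS
    rw [if_neg huv.symm, if_pos h', h]
    rfl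

private lemma toS_cases {n : ℕ} {T : Fin n → Fin n → Option (Fin 3)} (hT : Coloured T) {u v : Fin n} (huv : u ≠ v) :
    (∃ c, T u v = some c ∧ T v u = none) ∨ (∃ c, T v u = some c ∧ T u v = none) := by
  rcases h : T u v with _ | c
  · right
    have h' : T v u ≠ none := fun h2 => ((hT.2 u v huv).2 h2) h
    obtain ⟨c, hc⟩ := Option.ne_none_iff_exists'.1 h'
    exact ⟨c, hc, rfl⟩
  · left
    exact ⟨c, rfl, (hT.2 u v huv).1 (by rw [h]; simp)⟩

private lemma toS_true {n : ℕ} {T : Fin n → Fin n → Option (Fin 3)} (hT : Coloured T) {u v : Fin n} (huv : u ≠ v)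
    {s : St} (hs : toS T u v = s) (h2 : s.2 = true) : T u v = some s.1 := by
  subst hs
  rcases toS_cases hT huv with ⟨c, hc, -⟩ | ⟨c, hc, -⟩
  · rw [(toS_some hT hc).2.1, hc]
  · rw [(toS_some hT hc).2.2] at h2
    exact absurd h2 (by simp)

open Classical in
private lemma toS_mem {n : ℕ} {T : Fin n → Fin n → Option (Fin 3)} (hT : Coloured T) (hR : ¬ Rainbow T)
    (h2 : ¬ TwoColours T) : toS T ∈ CB n := by
  unfold CB
  rw [mem_filter, mem_CR]
  refine ⟨⟨⟨fun u => ?_, fun u v huv => ?_⟩, ?_⟩, ?_⟩
  · unfold toS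
    rw [if_pos rfl]
  · rcases toS_cases hT huv with ⟨c, hc, -⟩ | ⟨c, hc, -⟩
    · rw [(toS_some hT hc).2.1, (toS_some hT hc).2.2]
      rfl
    · rw [(toS_some hT hc).2.1, (toS_some hT hc).2.2]
      rfl
  · rintro a b c hab hbc hac ⟨h1, h3, h4, h5, h6, h7⟩
    exact hR ⟨a, b, c, _, _, _, toS_true hT hab rfl h1, toS_true hT hbc rfl h3, toS_true hT hac.symm rfl h4, h5, h6, h7⟩
  · rintro ⟨k, hk⟩
    refine h2 ⟨k, fun u v h => ?_⟩
    obtain ⟨huv, h3, -⟩ := toS_some hT h
    exact hk u v huv (by rw [h3])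

private lemma toS_inj {n : ℕ} {T T' : Fin n → Fin n → Option (Fin 3)} (hT : Coloured T) (hT' : Coloured T')
    (h : toS T = toS T') : T = T' := by
  funext u v
  by_cases huv : u = v
  · subst huv
    rw [hT.1, hT'.1]
  · rcases toS_cases hT huv with ⟨c, hc, -⟩ | ⟨c, hc, hc'⟩
    · have h1 := (toS_some hT hc).2.1
      rw [h] at h1
      rw [hc, toS_true hT' huv h1 rfl]
    · have h1 := (toS_some hT hc).2.1
      rw [h] at h1
      have h3 := toS_true hT' (Ne.symm huv) h1 rfl
      rw [hc', (hT'.2 v u (Ne.symm huv)).1 (by rw [h3]; simp)]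

open Classical in
private lemma ofS_mem {n : ℕ} {S : Fin n → Fin n → St} (hS : S ∈ CR (Fin n)) : ofS S ∈ Free n := by
  rw [mem_CR] at hS
  obtain ⟨hct, hrf⟩ := hS
  unfold Free
  rw [mem_filter]
  have key : ∀ u v i, ofS S u v = some i → u ≠ v ∧ (S u v).2 = true ∧ (S u v).1 = i := by
    intro u v i h
    unfold ofS at h
    by_cases huv : u = v
    · rw [if_pos huv] at h
      exact absurd h (by simp)
    · rw [if_neg huv] at h
      by_cases h2 : (S u v).2 = true
      · rw [if_pos h2] at h
        exact ⟨huv, h2, Option.some.inj h⟩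
      · rw [if_neg h2] at h
        exact absurd h (by simp)
  refine ⟨mem_univ _, ⟨fun v => ?_, fun u v huv => ?_⟩, ?_⟩
  · unfold ofS
    rw [if_pos rfl]
  · have h1 := hct.2 u v huv
    unfold ofS
    rw [if_neg huv, if_neg huv.symm, h1]
    rcases h : S u v with ⟨c, b⟩
    cases b <;> simp [rv]
  · rintro ⟨a, b, c, i, j, k, h1, h2, h3, h4, h5, h6⟩
    obtain ⟨a1, a2, a3⟩ := key _ _ _ h1
    obtain ⟨b1, b2, b3⟩ := key _ _ _ h2
    obtain ⟨c1, c2, c3⟩ := key _ _ _ h3
    exact hrf a b c a1 b1 c1.symm ⟨a2, b2, c2, by rw [a3, b3]; exact h4, by rw [b3, c3]; exact h5, by rw [a3, c3]; exact h6⟩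

private lemma ofS_inj {n : ℕ} {S S' : Fin n → Fin n → St} (hS : IsCT S) (hS' : IsCT S') (h : ofS S = ofS S') :
    S = S' := by
  have key : ∀ {S : Fin n → Fin n → St}, ∀ u v, u ≠ v → ofS S u v = if (S u v).2 = true then some (S u v).1 else none := by
    intro S u v huv
    unfold ofS
    rw [if_neg huv]
  funext u v
  by_cases huv : u = v
  · subst huv
    rw [hS.1, hS'.1]
  · have h1 : ofS S u v = ofS S' u v := by rw [h]
    have h2 : ofS S v u = ofS S' v u := by rw [h]
    rw [key u v huv, key u v huv] at h1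
    rw [key v u (Ne.symm huv), key v u (Ne.symm huv), hS.2 u v huv, hS'.2 u v huv] at h2
    rcases hs : S u v with ⟨c, b⟩
    rcases hs' : S' u v with ⟨c', b'⟩
    rw [hs, hs'] at h1 h2
    cases b <;> cases b' <;> simp [rv] at h1 h2 ⊢ <;> assumption

private lemma fin3a : ∀ k i : Fin 3, i ≠ k + 1 → i ≠ k + 2 → i = k := by decide

private lemma fin3b : ∀ k : Fin 3, ¬ (k = k + 1 ∨ k = k + 2) := by decide

private lemma fin3c : ∀ i j l k : Fin 3, i ≠ j → j ≠ l → i ≠ l → i = k ∨ j = k ∨ l = k := by decide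

/-- the theorem of Sands, Sauer and Woodrow for two colours -/
private lemma two_dominated {n : ℕ} (hn : 1 ≤ n) {T : Fin n → Fin n → Option (Fin 3)} (hT : Coloured T)
    (h2 : TwoColours T) : Dominated T := by
  obtain ⟨k, hk⟩ := h2
  have : Nonempty (Fin n) := ⟨⟨0, hn⟩⟩
  have harc : ∀ x y c, ((T x y ≠ none) ∧ (T x y).getD 0 = c) → T x y = some c := by
    rintro x y c ⟨h1, h3⟩
    obtain ⟨i, hi⟩ := Option.ne_none_iff_exists'.1 h1
    rw [hi] at h3 ⊢
    rw [← h3]
    rfl
  let G : Digraph (Fin n) := ⟨fun u v => T u v ≠ none⟩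
  have hmono : ∀ c x y, TransitiveClasses.Mono G (fun u v => (T u v).getD 0) c x y →
      TransGen (fun x y => T x y = some c) x y := by
    intro c x y h
    exact TransGen.mono (fun a b hab => harc a b c hab) _ _ h
  have hnk : ∀ x y, ¬ TransitiveClasses.Mono G (fun u v => (T u v).getD 0) k x y := by
    intro x y h
    obtain ⟨z, hz⟩ : ∃ z, T x z = some k := by
      rcases (TransGen.head'_iff.1 (hmono k x y h)) with ⟨z, hz, -⟩
      exact ⟨z, hz⟩
    exact hk x z hz
  have h3 := fin3a k
  obtain ⟨v, hv⟩ := TransitiveClasses.result G (fun u v => (T u v).getD 0) (k + 1) (k + 2)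
    (fun v h => h (hT.1 v))
    (fun u v huv => by
      show (T u v ≠ none ↔ ¬ (T v u ≠ none))
      rw [not_not]
      exact hT.2 u v huv)
    (fun i j x y h1 h2 h4 h5 hij _ _ _ => hij ((h3 i h1 h2).trans (h3 j h4 h5).symm))
    (fun i j l x y z hij hjl hil _ _ _ s1 s2 s3 => by
      have hstep : ∀ x y, ¬ TransitiveClasses.Step G (fun u v => (T u v).getD 0) (k + 1) (k + 2) k x y := by
        rintro x y (⟨h, -, -⟩ | ⟨-, -, h⟩)
        · exact fin3b k h
        · exact hnk x y h
      rcases fin3c i j l k hij hjl hil with rfl | rfl | rfl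
      · exact hstep _ _ s1
      · exact hstep _ _ s2
      · exact hstep _ _ s3)
  refine ⟨v, fun w hw => ?_⟩
  obtain ⟨i, hi⟩ := hv w hw
  exact ⟨i, hmono i v w hi⟩

open Classical in
theorem result : ∃ N : ℕ, ∀ n ≥ N,
    (((Free n).filter (fun T => ¬ (TwoColours T ∧ Dominated T))).card : ℝ) ≤
      (99 / 100) ^ n * ((Free n).card : ℝ) := by
  obtain ⟨N, hN⟩ := main
  refine ⟨N + 1, fun n hn => ?_⟩
  have h1 : ((Free n).filter (fun T => ¬ (TwoColours T ∧ Dominated T))).card ≤ (CB n).card := by
    refine card_le_card_of_injOn toS (fun T hT => ?_) (fun T hT T' hT' h => ?_)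
    · rw [mem_coe, mem_filter] at hT
      obtain ⟨hF, h2⟩ := hT
      unfold Free at hF
      rw [mem_filter] at hF
      exact toS_mem hF.2.1 hF.2.2 (fun h3 => h2 ⟨h3, two_dominated (by omega) hF.2.1 h3⟩)
    · rw [mem_coe, mem_filter] at hT hT'
      have h2 := hT.1
      have h3 := hT'.1
      unfold Free at h2 h3
      rw [mem_filter] at h2 h3
      exact toS_inj h2.2.1 h3.2.1 h
  have h2 : (CR (Fin n)).card ≤ (Free n).card := by
    refine card_le_card_of_injOn ofS (fun S hS => ?_) (fun S hS S' hS' h => ?_)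
    · exact ofS_mem hS
    · rw [mem_coe, mem_CR] at hS hS'
      exact ofS_inj hS.1 hS'.1 h
  calc (((Free n).filter (fun T => ¬ (TwoColours T ∧ Dominated T))).card : ℝ) ≤ (CB n).card := by exact_mod_cast h1
    _ ≤ (99 / 100) ^ n * ((CR (Fin n)).card : ℝ) := hN n (by omega)
    _ ≤ (99 / 100) ^ n * ((Free n).card : ℝ) := by
        apply mul_le_mul_of_nonneg_left _ (by positivity)
        exact_mod_cast h2

end Pool.Agent.Results.MP_fca86c_co.AlmostAll
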