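import Pool.Agent.Helper66.SSW.Chain

set_option autoImplicit false

/-!
# The Sands-Sauer-Woodrow question when a vertex that all three colours leave is entered by one colour only

A 3-coloured tournament without rainbow directed triangle has a vertex reaching every other vertex by a monochromatic
path if at every vertex either some colour is missing on the arcs leaving it or all arcs entering it have the same
colour; and also if at every vertex either some colour is missing on the arcs entering it or all arcs leaving it have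
the same colour.
-/

namespace Pool.Agent.Results.MP_fca86c_co.ThreeOutOneIn

open Relation

variable {V : Type*}

/-- `Arc G col c u v`: `uv` is an arc of colour `c`. -/
def Arc (G : Digraph V) (col : V → V → Fin 3) (c : Fin 3) (u v : V) : Prop := G.Adj u v ∧ col u v = c

/-- `Mono G col c u v`: there is a directed path (of length at least one) from `u` to `v` all of whose arcs have
colour `c`. -/
def Mono (G : Digraph V) (col : V → V → Fin 3) (c : Fin 3) (u v : V) : Prop := TransGen (Arc G col c) u v

theorem result {V : Type*} [Finite V] [Nonempty V] (G : Digraph V) (col : V → V → Fin 3)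
    (hirr : ∀ v, ¬ G.Adj v v)
    (htour : ∀ u v, u ≠ v → (G.Adj u v ↔ ¬ G.Adj v u))
    (hrb : ¬ ∃ u v w, G.Adj u v ∧ G.Adj v w ∧ G.Adj w u ∧
      col u v ≠ col v w ∧ col v w ≠ col w u ∧ col u v ≠ col w u)
    (h : (∀ v, (∃ c, ∀ w, G.Adj v w → col v w ≠ c) ∨ ∃ c, ∀ w, G.Adj w v → col w v = c) ∨
      ∀ v, (∃ c, ∀ w, G.Adj w v → col w v ≠ c) ∨ ∃ c, ∀ w, G.Adj v w → col v w = c) :
    ∃ v, ∀ w, w ≠ v → ∃ c, Mono G col c v w := by
  have hor : ∀ u v, u ≠ v → (∃ k, Arc G col k u v) ∨ ∃ k, Arc G col k v u := by
    intro u v huv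
    by_cases h : G.Adj u v
    · exact Or.inl ⟨col u v, h, rfl⟩
    · have h2 : G.Adj v u := (htour v u (Ne.symm huv)).2 h
      exact Or.inr ⟨col v u, h2, rfl⟩
  have has : ∀ k l u v, Arc G col k u v → ¬ Arc G col l v u := by
    intro k l u v h1 h2
    by_cases huv : u = v
    · subst huv
      exact hirr u h1.1
    · exact (htour u v huv).1 h1.1 h2.1
  have hcol : ∀ c d e u v w, c ≠ d → d ≠ e → c ≠ e → Arc G col c u v → Arc G col d v w → Arc G col e w u → False := by
    intro c d e u v w hcd hde hce h1 h2 h3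
    refine hrb ⟨u, v, w, h1.1, h2.1, h3.1, ?_, ?_, ?_⟩
    · rw [h1.2, h2.2]
      exact hcd
    · rw [h2.2, h3.2]
      exact hde
    · rw [h1.2, h3.2]
      exact hce
  rcases h with hout | hin
  · refine Pool.Agent.Helper66.SSW.main (Arc G col) ⟨hor, has, fun k l u v h1 h2 => h1.2.symm.trans h2.2, hcol, ?_⟩
    intro v
    rcases hout v with ⟨t, ht⟩ | ⟨t, ht⟩
    · exact Or.inl ⟨t, fun w hw => ht w hw.1 hw.2⟩
    · exact Or.inr fun k l u w h1 h2 => (h1.2.symm.trans (ht u h1.1)).trans ((ht w h2.1).symm.trans h2.2)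
  · refine Pool.Agent.Helper66.SSW.main_in (Arc G col) ⟨fun u v huv => hor v u huv.symm, fun k l u v => has k l v u,
      fun k l u v h1 h2 => h1.2.symm.trans h2.2, ?_, ?_⟩
    · intro c d e u v w hcd hde hce h1 h2 h3
      exact hcol e d c u w v hde.symm hcd.symm hce.symm h3 h2 h1
    · intro v
      rcases hin v with ⟨t, ht⟩ | ⟨t, ht⟩
      · exact Or.inl ⟨t, fun w hw => ht w hw.1 hw.2⟩
      · exact Or.inr fun k l u w h1 h2 => (h1.2.symm.trans (ht u h1.1)).trans ((ht w h2.1).symm.trans h2.2)

end Pool.Agent.Results.MP_fca86c_co.ThreeOutOneIn
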